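import Pool.Agent.V8H56.BC.Convert

/-!
MP_9b3711_an, Q1 (affirmative answer).

For `0 < p ≤ 1` and every `α > 0`, the Besov capacity `A_{α,p,p}` and the capacity `B_{α,p}` of
the Bessel potentials of the real Hardy space `H^p` have the same compact null sets. If `αp < n`
these are the compact sets with `H^{n-αp}(K) = 0`; if `αp ≥ n` only the empty set is null.
-/

open MeasureTheory
open scoped ENNReal
open Pool.Agent.V8H56.BesovHardy

namespace Pool.Agent.Results.MP_9b3711_an.SameNullSets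

/-- `A_{α,p,p}` and `B_{α,p}` have the same compact null sets, for all `α > 0` and `0 < p ≤ 1`. -/
theorem result {n : ℕ} {φ : EuclideanSpace ℝ (Fin n) → ℝ} (hφ : IsCutoff φ)
    {α p : ℝ} (hα : 0 < α) (hp : 0 < p) (hp1 : p ≤ 1)
    {𝒟 : Set (Sch n)}
    (h𝒟 : ∀ u : Sch n, HasCompactSupport u → (∀ x, (u x).im = 0) → u ∈ 𝒟)
    {N : ℕ} (hN : (n : ℝ) + n / p + 3 ≤ N) {T : ℝ≥0∞} (hT : 1 ≤ T)
    {K : Set (EuclideanSpace ℝ (Fin n))} (hK : IsCompact K) :
    (besovCap φ α p 𝒟 K = 0 ↔ hardyCap N T α p K = 0) ∧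
    (α * p < n → (besovCap φ α p 𝒟 K = 0 ↔ μH[n - α * p] K = 0)) ∧
    (n ≤ α * p → (besovCap φ α p 𝒟 K = 0 ↔ K = ∅)) :=
  Pool.Agent.V8H56.BC.main' hφ hα hp hp1 h𝒟 hN hT hK

end Pool.Agent.Results.MP_9b3711_an.SameNullSets
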